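import Pool.Agent.Helper76.ND.StD

/-! # ND module Oh -/

set_option autoImplicit false

noncomputable section

namespace Pool.Agent.Helper75.ND

open Pool.Agent.Helper76.ND Finset

/-- law of the residue of words with large `cc` -/
def cr (n k t : ℕ) (r : ZMod (3 ^ n)) : ℝ :=
  (((W t).filter (fun l => hd l = k ∧ 3 ^ n ≤ cc l ∧ Yz n l = r)).card : ℝ) / 2 ^ t

theorem cr_nonneg (n k t : ℕ) (r : ZMod (3 ^ n)) : 0 ≤ cr n k t r := by
  unfold cr
  positivity

theorem ct_eq (n k t : ℕ) : ct n k t = fun r => cg n k t r + cr n k t r := by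
  funext r
  unfold ct cg cr
  rw [← add_div]
  congr 1
  rw [← Nat.cast_add]
  congr 1
  rw [card_filter, card_filter, card_filter, ← sum_add_distrib]
  refine sum_congr rfl fun l _ => ?_
  by_cases h1 : hd l = k
  · by_cases h2 : Yz n l = r
    · by_cases h3 : cc l < 3 ^ n
      · have h4 : ¬ 3 ^ n ≤ cc l := by omega
        simp [h1, h2, h3, h4]
      · have h4 : 3 ^ n ≤ cc l := by omega
        simp [h1, h2, h3, h4]
    · simp [h2]
  · simp [h1]

theorem Rn_add (n k s : ℕ) (c c' : ZMod (3 ^ n) → ℝ) (u : ZMod (3 ^ n)) :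
    Rn n k s (fun r => c r + c' r) u = fun r => Rn n k s c u r + Rn n k s c' u r := by
  funext r
  unfold Rn
  rw [← add_div, ← sum_add_distrib]

theorem sum_cr_nat (n t : ℕ) :
    ∑ k ∈ range n, ∑ r : ZMod (3 ^ n),
      ((W t).filter (fun l => hd l = k ∧ 3 ^ n ≤ cc l ∧ Yz n l = r)).card ≤
      ((W t).filter (fun l => 3 ^ n ≤ cc l)).card := by
  have e1 : ∀ k ∈ range n, (∑ r : ZMod (3 ^ n),
      ((W t).filter (fun l => hd l = k ∧ 3 ^ n ≤ cc l ∧ Yz n l = r)).card) =
      ((W t).filter (fun l => hd l = k ∧ 3 ^ n ≤ cc l)).card := by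
    intro k _
    simp only [card_filter]
    rw [sum_comm]
    refine sum_congr rfl fun l _ => ?_
    by_cases h : hd l = k ∧ 3 ^ n ≤ cc l
    · rw [if_pos h]
      have : ∀ r : ZMod (3 ^ n), (if hd l = k ∧ 3 ^ n ≤ cc l ∧ Yz n l = r then 1 else 0) =
          if Yz n l = r then 1 else 0 := by
        intro r
        simp only [h.1, h.2, true_and]
      simp only [this, sum_ite_eq, mem_univ, if_true]
    · rw [if_neg h]
      refine sum_eq_zero fun r _ => ?_
      rw [if_neg]
      rintro ⟨a, b, _⟩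
      exact h ⟨a, b⟩
  rw [sum_congr rfl e1]
  simp only [card_filter]
  rw [sum_comm]
  refine sum_le_sum fun l _ => ?_
  by_cases h : 3 ^ n ≤ cc l
  · rw [if_pos h]
    have : ∀ k : ℕ, (if hd l = k ∧ 3 ^ n ≤ cc l then 1 else 0) =
        if hd l = k then 1 else 0 := by
      intro k
      simp only [h, and_true]
    simp only [this, sum_ite_eq]
    split_ifs <;> omega
  · rw [if_neg h]
    refine le_of_eq (sum_eq_zero fun k _ => ?_)
    rw [if_neg]
    rintro ⟨_, b⟩
    exact h b

theorem sum_cr (n t : ℕ) :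
    ∑ k ∈ range n, ∑ r : ZMod (3 ^ n), |cr n k t r| ≤
      (((W t).filter (fun l => 3 ^ n ≤ cc l)).card : ℝ) / 2 ^ t := by
  have e : ∀ k ∈ range n, ∑ r : ZMod (3 ^ n), |cr n k t r| =
      (∑ r : ZMod (3 ^ n),
        (((W t).filter (fun l => hd l = k ∧ 3 ^ n ≤ cc l ∧ Yz n l = r)).card : ℝ)) / 2 ^ t := by
    intro k _
    rw [sum_div]
    refine sum_congr rfl fun r _ => ?_
    rw [abs_of_nonneg (cr_nonneg n k t r)]
    rfl
  rw [sum_congr rfl e, ← sum_div]
  refine div_le_div_of_nonneg_right ?_ (by positivity)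
  exact_mod_cast sum_cr_nat n t

theorem split_sum (K t : ℕ) (f g : ℕ → ℝ) (hf : ∀ s, 0 ≤ f s) (hg : ∀ s, 0 ≤ g s) :
    ∑ s ∈ range K, (if s ≤ t then f s else g (s - t)) ≤
      ∑ s ∈ range (t + 1), f s + ∑ s ∈ range (K + 1), g s := by
  have h1 : ∑ s ∈ range K, (if s ≤ t then f s else g (s - t)) ≤
      ∑ s ∈ range (t + 1 + K), (if s ≤ t then f s else g (s - t)) := by
    refine sum_le_sum_of_subset_of_nonneg (range_subset_range.2 (by omega)) ?_
    intro s _ _
    split_ifs
    · exact hf s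
    · exact hg _
  refine h1.trans ?_
  rw [sum_range_add]
  refine add_le_add (le_of_eq (sum_congr rfl fun s hs => ?_)) ?_
  · rw [mem_range] at hs
    rw [if_pos (by omega)]
  · rw [sum_range_succ']
    have : ∑ x ∈ range K, (if t + 1 + x ≤ t then f (t + 1 + x) else g (t + 1 + x - t)) =
        ∑ x ∈ range K, g (x + 1) := by
      refine sum_congr rfl fun x _ => ?_
      rw [if_neg (by omega), show t + 1 + x - t = x + 1 by omega]
    rw [this]
    linarith [hg 0]

theorem hOh (hOb : StOb) (hCn : StCn) (hDe : StDe) (hCo : StCo) (hQs : StQs) : StOh := by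
  obtain ⟨o1, o2, -, o4, -, o6, o7⟩ := hOb
  obtain ⟨-, c2⟩ := hCn
  obtain ⟨-, -, co3⟩ := hCo
  obtain ⟨q1, -⟩ := hQs
  constructor
  · intro n e t K _
    obtain ⟨B, hB⟩ : ∃ B : ℕ → ℝ, B = fun s => (∑ k ∈ range n,
        O1 n e (Rn n (n - k) s (cg n k t) (3 ^ k * hf n ^ t))) +
        ∑ k ∈ range n, qs (n - k) s * (2 * ∑ r, |cr n k t r|) := ⟨_, rfl⟩
    have hB0 : ∀ s, 0 ≤ B s := by
      intro s
      rw [hB]
      refine add_nonneg (sum_nonneg fun k _ => o1 _ _ _) (sum_nonneg fun k _ => ?_)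
      refine mul_nonneg (qs_nonneg _ _) (mul_nonneg (by norm_num) (sum_nonneg fun r _ => abs_nonneg _))
    have hterm : ∀ s ∈ range K, O1 n e (sz n n s) ≤
        if s ≤ t then 2 * qs n s else B (s - t) := by
      intro s _
      split_ifs with hst
      · rw [← c2 n s]
        exact o6 n e _
      · have hst' : t < s := by omega
        have e1 : sz n n s = fun r => ∑ k ∈ range n,
            Rn n (n - k) (s - t) (ct n k t) (3 ^ k * hf n ^ t) r := by
          funext r
          exact hDe n t s r hst'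
        rw [e1]
        refine (o4 n e (range n)
          (fun k => Rn n (n - k) (s - t) (ct n k t) (3 ^ k * hf n ^ t))).trans ?_
        rw [hB]
        simp only
        rw [← sum_add_distrib]
        refine sum_le_sum fun k _ => ?_
        rw [ct_eq, Rn_add]
        refine (o2 n e _ _).trans ?_
        refine add_le_add (le_refl _) ?_
        refine (o7 n e (n - k) (s - t) (cr n k t) _).trans ?_
        exact mul_le_mul_of_nonneg_left (o6 n e _) (qs_nonneg _ _)
    refine (sum_le_sum hterm).trans ?_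
    refine (split_sum K t (fun s => 2 * qs n s) B (fun s => by
      have := qs_nonneg n s; positivity) hB0).trans ?_
    rw [← mul_sum, add_assoc]
    refine add_le_add (le_refl _) ?_
    rw [hB]
    simp only
    rw [sum_add_distrib, sum_comm]
    refine add_le_add (le_refl _) ?_
    rw [sum_comm]
    have h3 : ∑ k ∈ range n, ∑ s ∈ range (K + 1), qs (n - k) s * (2 * ∑ r, |cr n k t r|) ≤
        ∑ k ∈ range n, (2 * ∑ r, |cr n k t r|) := by
      refine sum_le_sum fun k _ => ?_
      rw [← sum_mul]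
      have h4 := q1 (n - k) (K + 1)
      have h5 : 0 ≤ 2 * ∑ r, |cr n k t r| :=
        mul_nonneg (by norm_num) (sum_nonneg fun r _ => abs_nonneg _)
      nlinarith
    refine h3.trans ?_
    rw [← mul_sum]
    exact mul_le_mul_of_nonneg_left (sum_cr n t) (by norm_num)
  · intro n e t k K u
    have h1 : ∀ s ∈ range (K + 1), O1 n e (Rn n (n - k) s (cg n k t) u) ≤
        qs (n - k) s * (2 * q t k) := by
      intro s _
      refine (o7 n e (n - k) s (cg n k t) u).trans ?_
      refine mul_le_mul_of_nonneg_left ?_ (qs_nonneg _ _)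
      refine (o6 n e _).trans ?_
      exact mul_le_mul_of_nonneg_left (co3 n k t) (by norm_num)
    refine (sum_le_sum h1).trans ?_
    rw [← sum_mul]
    have h4 := q1 (n - k) (K + 1)
    have h5 := q_nonneg t k
    nlinarith

end Pool.Agent.Helper75.ND
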